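import Mathlib
import Pool.Agent.Helper16.RA.Defs
import Pool.Agent.Helper16.RC.Defs

/-!
# MP_c9c10f, arbitrary 2-colourings, `P(2)`: rigidity of radial positive definite functions

All statements of the project RG (table rg_rows).  Proofs: /team-store/RG.md.
`Om` is the set of all characters of the DISCRETE additive group `ℂ`.
-/

set_option autoImplicit false

open MeasureTheory Complex
open scoped ComplexConjugate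

namespace Pool.Agent.Helper1.RG

/-! ### the space of characters -/

/-- all characters (no continuity) of the additive group `ℂ` -/
abbrev Om : Type := AddChar ℂ Circle

/-- evaluation at `x`, as a complex number of modulus one -/
noncomputable def ev (x : ℂ) (χ : Om) : ℂ := ((χ x : Circle) : ℂ)

/-- the sigma algebra generated by the evaluations at the points of `S` -/
@[reducible] noncomputable def sig (S : Set ℂ) : MeasurableSpace Om :=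
  MeasurableSpace.comap (fun (χ : Om) (x : S) => ev (x : ℂ) χ) MeasurableSpace.pi

noncomputable instance instMeasOm : MeasurableSpace Om := sig Set.univ

/-- `e T z = exp(i Re(conj T * z))` -/
noncomputable def e (T z : ℂ) : Circle := Circle.exp ((conj T * z).re)

/-- the numbers `2 + i`, `2 - i`, `k = (2 + i) / (2 - i)` -/
noncomputable def ga : ℂ := 2 + I

noncomputable def gb : ℂ := 2 - I

noncomputable def kk : ℂ := ga / gb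

/-- the Gaussian integers in `ℂ` -/
def ZI : Set ℂ := {z | ∃ a b : ℤ, z = a + b * I}

/-- the Gaussian rationals -/
def QI : Set ℂ := {z | ∃ a b : ℚ, z = a + b * I}

/-- the rational points of the unit circle -/
def QU : Set ℂ := {u | u ∈ QI ∧ ‖u‖ = 1}

/-- the localisation of `ℤ[i]` at the prime `2 - i` -/
def RR : Set ℂ := {x | ∃ a s : GaussianInt, ¬ ((⟨2, -1⟩ : GaussianInt) ∣ s) ∧
  x * GaussianInt.toComplex s = GaussianInt.toComplex a}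

/-- `(2 - i)^(-j) R` -/
def Rj (j : ℕ) : Set ℂ := {x | gb ^ j * x ∈ RR}

/-- the filtration -/
@[reducible] noncomputable def Fil (j : ℕ) : MeasurableSpace Om := sig (Rj j)

/-- the generator `x_j = k^j / 5` of level `j + 1` over level `j` -/
noncomputable def xj (j : ℕ) : ℂ := kk ^ j / 5

/-- `ℤ[i][1/(2-i)]` -/
def OP : Set ℂ := {z | ∃ j : ℕ, gb ^ j * z ∈ ZI}

/-- `χ = e_T` on `m ℤ[i][1/(2-i)]` -/
def Fm (m : ℕ) : Set Om := {χ | ∃ T : ℂ, ∀ z ∈ OP, χ (m * z) = e T (m * z)}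

def FF : Set Om := {χ | ∃ m : ℕ, 1 ≤ m ∧ χ ∈ Fm m}

/-- `χ = e_T` on `ℚ(i)` -/
def GG : Set Om := {χ | ∃ T : ℂ, ∀ x ∈ QI, χ x = e T x}

/-- invariance of the measure under the rational units, `(χ.mulShift u) x = χ (u * x)` -/
def Inv (P : Measure Om) : Prop := ∀ u ∈ QU, P.map (fun χ : Om => χ.mulShift u) = P

/-- invariance under all units -/
def InvC (P : Measure Om) : Prop := ∀ u : ℂ, ‖u‖ = 1 → P.map (fun χ : Om => χ.mulShift u) = P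

/-- trivial row (helper1): `χ ↦ χ.mulShift u` is measurable -/
def ST_MS : Prop := ∀ u : ℂ, Measurable (fun χ : Om => χ.mulShift u)

/-! ### part B: the random character -/

def BdO (f : Om → ℝ) : Prop := ∃ C : ℝ, ∀ x, |f x| ≤ C

/-- positive normalised functional on the bounded functions on `Om` -/
structure PosF (Λ : (Om → ℝ) → ℝ) : Prop where
  add : ∀ f g, BdO f → BdO g → Λ (f + g) = Λ f + Λ g
  smul : ∀ (a : ℝ) f, BdO f → Λ (a • f) = a * Λ f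
  nonneg : ∀ f, BdO f → (∀ x, 0 ≤ f x) → 0 ≤ Λ f
  one : Λ (fun _ => 1) = 1

/-- row BO1 (Foelner sets).  `B_n = {∑ m_s s : 0 ≤ m_s < n}`, or growth: `|n S| ≤ (n+1)^|S|`
polynomial, so `|B_{n+1}| ≤ (1 + ε) |B_n|` for some `n`, and `B_n + s ⊆ B_{n+1}`. -/
def ST_BO1 : Prop := ∀ (S : Finset ℂ) (ε : ℝ), 0 < ε → ∃ B : Finset ℂ, B.Nonempty ∧
  ∀ s ∈ S, (1 - ε) * (B.card : ℝ) ≤ ((B.filter fun b => b + s ∈ B).card : ℝ)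

/-- row BO2 (from BO1): `Λ g = M_t [g(e_t) f_B(t)]`, `M` an invariant mean of `ℂ`
(Helper73/RC/MEANG), `f_B(t) = |B|⁻¹ ∑_{x,y ∈ B} F(|x-y|²) cos Re(conj t (x-y)) ≥ 0` (positive
definiteness with weights cos and sin), `M_t cos Re(conj t z) = 0` for `z ≠ 0`. -/
def ST_BO2 : Prop := ∀ F : ℝ → ℝ, Pool.Agent.Helper16.RA.RPD F → ∀ (S : Finset ℂ) (ε : ℝ), 0 < ε →
  ∃ Λ : (Om → ℝ) → ℝ, PosF Λ ∧ ∀ z ∈ S, |Λ (fun χ => (ev z χ).re) - F (normSq z)| ≤ ε ∧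
    Λ (fun χ => (ev z χ).im) = 0

/-- row BO3 (from BO2): ultrafilter limit over the pairs `(S, 1/n)` -/
def ST_BO3 : Prop := ∀ F : ℝ → ℝ, Pool.Agent.Helper16.RA.RPD F →
  ∃ Λ : (Om → ℝ) → ℝ, PosF Λ ∧ ∀ z, Λ (fun χ => (ev z χ).re) = F (normSq z) ∧
    Λ (fun χ => (ev z χ).im) = 0

/-- row BO4: Riesz-Markov-Kakutani on `Om` (compact Hausdorff as closed subset of `ℂ → Circle`),
then restrict the Borel measure to the sigma algebra of evaluations -/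
def ST_BO4 : Prop := ∀ Λ : (Om → ℝ) → ℝ, PosF Λ → ∃ P : Measure Om, IsProbabilityMeasure P ∧
  ∀ z, ∫ χ, (ev z χ).re ∂P = Λ (fun χ => (ev z χ).re) ∧
    ∫ χ, (ev z χ).im ∂P = Λ (fun χ => (ev z χ).im)

/-- row UNI: uniqueness (finite dimensional distributions; on `Circle^n` or `ℂ^n` the moments
`∏ ev(x_i)^{n_i} = ev(∑ n_i x_i)` determine the law: Stone-Weierstrass /
`ext_of_forall_mem_subalgebra_integral_eq_of_polish`) -/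
def ST_UNI : Prop := ∀ P P' : Measure Om, IsProbabilityMeasure P → IsProbabilityMeasure P' →
  (∀ x, ∫ χ, ev x χ ∂P = ∫ χ, ev x χ ∂P') → P = P'

/-! ### part A: algebra in `ℤ[i]` localised at `2 - i` -/

/-- row A1 -/
def ST_A1 : Prop :=
  (∀ z ∈ ZI, z ∈ RR) ∧ (∀ x ∈ RR, ∀ y ∈ RR, x + y ∈ RR ∧ x * y ∈ RR ∧ x - y ∈ RR) ∧
  (∀ x ∈ RR, x ∈ QI) ∧ RR.Countable ∧ kk ∈ QU ∧
  (∀ j x, x ∈ Rj j → x ∈ Rj (j + 1)) ∧
  (∀ j, ∀ x ∈ Rj j, ∀ y ∈ Rj j, x + y ∈ Rj j ∧ x - y ∈ Rj j) ∧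
  (∀ j, ∀ x ∈ RR, ∀ y ∈ Rj j, x * y ∈ Rj j) ∧
  (∀ j x, x ∈ Rj j ↔ kk * x ∈ Rj (j + 1)) ∧
  (∀ j, kk ^ j ∈ Rj j) ∧ (∀ j, xj j ∈ Rj (j + 1)) ∧ (∀ j, 5 * xj j ∈ Rj j)

/-- row A2: the classes of `(2-i)^(-j-1) R` modulo `(2-i)^(-j) R` are `a x_j`, `a < 5` -/
def ST_A2 : Prop := ∀ (j : ℕ) (x : ℂ), x ∈ Rj (j + 1) → ∃ a : ℕ, a < 5 ∧ x - a * xj j ∈ Rj j

/-- row A3: the units `(a + i)/(a - i)`, `a = a₀ + 5^L c`, `1 ≤ c ≤ 5^L`, `5 ∤ c` with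
`(2-i)^(L+1) | a₀ - i`: `u_a - u_b = 2i(b-a)/((a-i)(b-i))` has valuation `v_5(c'-c) - L < 0`. -/
def ST_A3 : Prop := ∀ L : ℕ, ∃ U : Finset ℂ, (U.card = 4 * 5 ^ L) ∧ (∀ u ∈ U, u ∈ QU ∧ u ∈ Rj (L + 1)) ∧
  ∀ u ∈ U, ∀ v ∈ U, u ≠ v → u - v ∉ RR

/-- the unit `w_a = (5a + i)/(5a - i)` -/
noncomputable def wu (a : ℕ) : ℂ := (5 * a + I) / (5 * a - I)

/-- row A4 -/
def ST_A4 : Prop := ∀ a : ℕ, wu a ∈ QU ∧ wu a ∈ RR ∧ (wu a)⁻¹ ∈ RR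

/-- row FIL (from A1, A2) -/
def ST_FIL : Prop := ∀ j : ℕ, Fil j ≤ Fil (j + 1) ∧ Fil (j + 1) ≤ instMeasOm ∧
  Fil (j + 1) = Fil j ⊔ MeasurableSpace.comap (ev (xj j)) (borel ℂ)

/-! ### part H: Host's inequality -/

/-- conditional probability of the actual value of `χ x` given `m` (when `χ (5 x)` is
`m`-measurable), in Fourier form -/
noncomputable def pp (P : Measure Om) (m : MeasurableSpace Om) (x : ℂ) (χ : Om) : ℝ :=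
  (1 / 5 : ℝ) * ∑ a ∈ Finset.range 5, (conj (ev ((a : ℂ) * x) χ) * (P[ev ((a : ℂ) * x) | m]) χ).re

/-- row L1.  Given `m`, `ζ = ev x` is a fifth root of the `m`-measurable `ev (5x)`:
`ζ = c ω^H`, `P_h = P(H = h | m)`, `Z = ∑ Z_h 1[H = h]` with `Z_h` `m`-measurable, `pp = P_H`,
Parseval on `ℤ/5`. -/
def ST_L1 : Prop := ∀ (P : Measure Om), IsProbabilityMeasure P → ∀ (m m' : MeasurableSpace Om)
  (x : ℂ), m ≤ m' → m' ≤ instMeasOm → Measurable[m] (ev (5 * x)) →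
  m' = m ⊔ MeasurableSpace.comap (ev x) (borel ℂ) →
  (∀ᵐ χ ∂P, 0 ≤ pp P m x χ ∧ pp P m x χ ≤ 1) ∧
  ∀ (Z : Om → ℂ) (C : ℝ), Measurable[m'] Z → (∀ χ, ‖Z χ‖ ≤ C) →
    ∑ a ∈ Finset.range 5, ∫ χ, ‖(P[fun χ => ev ((a : ℂ) * x) χ * Z χ | m]) χ‖ ^ 2 ∂P =
      5 * ∫ χ, ‖Z χ‖ ^ 2 * pp P m x χ ∂P

/-- the conditional probability at time `j` -/
noncomputable def pj (P : Measure Om) (j : ℕ) (χ : Om) : ℝ := pp P (Fil j) (xj j) χ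

/-- row H2 (from A1, FIL, L1): induction on `L` with an additional bounded `Fil L`-measurable factor
`Z` (equality `= 5^L ∫ |Z|² ∏ p_j`); step: `a = (a', a_L)`, condition on `Fil L`, then L1 for
`Z √(∏_{j<L} p_j)`. -/
def ST_H2 : Prop := ∀ (P : Measure Om), IsProbabilityMeasure P → ∀ L : ℕ,
  ∑ a : Fin L → Fin 5,
    ∫ χ, ‖(P[ev (∑ j : Fin L, ((a j : ℕ) : ℂ) * xj j) | Fil 0]) χ‖ ^ 2 ∂P ≤
  5 ^ L * ∫ χ, ∏ j ∈ Finset.range L, pj P j χ ∂P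

/-- row H3 (from A1, A2, A3, H2) -/
def ST_H3 : Prop := ∀ (P : Measure Om), IsProbabilityMeasure P → Inv P → ∀ L : ℕ,
  4 / 5 * ‖∫ χ, ev 1 χ ∂P‖ ^ 2 ≤ ∫ χ, ∏ j ∈ Finset.range (L + 1), pj P j χ ∂P

/-- row H4 (from A1, A2): `k^j R = (2-i)^(-j) R`, `E[g | m] ∘ T = E[g ∘ T | T⁻¹ m]`; for a unit `u` of
`R` the classes `a u / 5` are a permutation of the classes `a / 5` mod `R`, and
`conj (ev x) E[ev x | Fil 0]` depends only on the class of `x` mod `R`. -/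
def ST_H4 : Prop := ∀ (P : Measure Om), IsProbabilityMeasure P → Inv P →
  (∀ j, ∀ᵐ χ ∂P, pj P j χ = pj P 0 (χ.mulShift (kk ^ j))) ∧
  (∀ u ∈ QU, u ∈ RR → u⁻¹ ∈ RR → ∀ᵐ χ ∂P, pj P 0 (χ.mulShift u) = pj P 0 χ)

/-- the event of the row PRD -/
def VV {Ω : Type} (T : Ω → Ω) (p : Ω → ℝ) : Set Ω :=
  {ω | ∃ n : ℕ, ∀ L : ℕ, 1 / ((n : ℝ) + 1) ≤ ∏ j ∈ Finset.range L, p (T^[j] ω)}

/-- row PRD (abstract): products along an orbit.  `T ω ∈ VV` if `ω ∈ VV`; Poincare recurrence gives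
`p = 1` a.e. on `VV`. -/
def ST_PRD : Prop := ∀ (Ω : Type) (_ : MeasurableSpace Ω) (P : Measure Ω), IsProbabilityMeasure P →
  ∀ (T : Ω → Ω) (p : Ω → ℝ) (c : ℝ), MeasurePreserving T P P → Measurable p →
  (∀ ω, 0 ≤ p ω) → (∀ ω, p ω ≤ 1) →
  (∀ L : ℕ, c ≤ ∫ ω, ∏ j ∈ Finset.range L, p (T^[j] ω) ∂P) →
  MeasurableSet (VV T p) ∧ c ≤ P.real (VV T p) ∧ (∀ᵐ ω ∂P, (ω ∈ VV T p ↔ T ω ∈ VV T p)) ∧
  (∀ᵐ ω ∂P, ω ∈ VV T p → p ω = 1)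

/-- row V (from H3, H4, PRD, MS) -/
def ST_V : Prop := ∀ (P : Measure Om), IsProbabilityMeasure P → Inv P → (∫ χ, ev 1 χ ∂P) ≠ 0 →
  ∃ V : Set Om, MeasurableSet V ∧ P V ≠ 0 ∧
    (∀ᵐ χ ∂P, (χ ∈ V ↔ χ.mulShift kk ∈ V)) ∧
    (∀ u ∈ QU, u ∈ RR → u⁻¹ ∈ RR → ∀ᵐ χ ∂P, (χ ∈ V ↔ χ.mulShift u ∈ V)) ∧
    ∀ᵐ χ ∂P, χ ∈ V → (P[ev (1 / 5) | Fil 0]) χ = ev (1 / 5) χ

/-! ### part C: approximation -/

/-- row DEN: trigonometric polynomials are dense -/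
def ST_DEN : Prop := ∀ (P : Measure Om), IsProbabilityMeasure P → ∀ S : Set ℂ, S.Countable →
  0 ∈ S → (∀ x ∈ S, ∀ y ∈ S, x - y ∈ S) → ∀ (g : Om → ℂ) (C : ℝ), Measurable[sig S] g →
  (∀ χ, ‖g χ‖ ≤ C) → ∀ ε : ℝ, 0 < ε → ∃ (F : Finset ℂ) (c : ℂ → ℂ), (∀ x ∈ F, x ∈ S) ∧
    ∫ χ, ‖g χ - ∑ x ∈ F, c x * ev x χ‖ ∂P ≤ ε

/-- the time `0` is bad -/
def bad (F : Finset ℂ) (c : ℂ → ℂ) : Set Om :=
  {χ | 1 / 20 < ‖ev (1 / 5) χ - ∑ x ∈ F, c x * ev x χ‖}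

/-- row C (from A1, DEN; Markov) -/
def ST_C : Prop := ∀ (P : Measure Om), IsProbabilityMeasure P → ∀ V : Set Om, MeasurableSet V →
  (∀ᵐ χ ∂P, χ ∈ V → (P[ev (1 / 5) | Fil 0]) χ = ev (1 / 5) χ) → ∀ ε : ℝ, 0 < ε →
  ∃ (F : Finset ℂ) (c : ℂ → ℂ), (∀ x ∈ F, x ∈ RR) ∧ P.real (V ∩ bad F c) ≤ ε

/-! ### part M: the maximal inequality -/

/-- average of `f` over all `M_{g(a)/g(a')}`, `g(a) = ∏_{i<n} u i (a i)` -/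
noncomputable def Av (N : ℕ → ℕ) (u : ℕ → ℕ → ℂ) (f : Om → ℝ) (n : ℕ) (χ : Om) : ℝ :=
  (∑ a : (i : Fin n) → Fin (N i), ∑ a' : (i : Fin n) → Fin (N i),
    f (χ.mulShift ((∏ i : Fin n, u i (a i)) / ∏ i : Fin n, u i (a' i)))) /
  ((∏ i ∈ Finset.range n, (N i : ℝ)) ^ 2)

/-- row MAX (Rota / Doob) -/
def ST_MAX : Prop := ∀ (P : Measure Om), IsProbabilityMeasure P → Inv P →
  ∀ (N : ℕ → ℕ) (u : ℕ → ℕ → ℂ), (∀ n, 1 ≤ N n) → (∀ n a, a < N n → u n a ∈ QU) →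
  ∀ f : Om → ℝ, Measurable f → (∀ χ, 0 ≤ f χ) → (∀ χ, f χ ≤ 1) → ∀ lam : ℝ, 0 < lam →
    P.real {χ | ∃ n, lam < Av N u f n χ} ≤ 2 * √(∫ χ, f χ ∂P) / lam

open Classical in
/-- characters with few bad times, for all dyadic lengths -/
def Good (F : Finset ℂ) (c : ℂ → ℂ) (lam : ℝ) : Set Om :=
  {χ | ∀ n : ℕ, (((Finset.range (2 ^ n)).filter fun j => χ.mulShift (kk ^ j) ∈ bad F c).card : ℝ) ≤
    lam * 2 ^ n}

/-- row E1 (from MAX with `N = 2`, `u i 0 = 1`, `u i 1 = k^(2^i)`, `f = 1_{V ∩ bad}`):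
`Av (n+1) ≥ (4 · 2^n)⁻¹ #{j < 2^n bad}` (Fejer weights). -/
def ST_E1 : Prop := ∀ (P : Measure Om), IsProbabilityMeasure P → Inv P → ∀ V : Set Om,
  MeasurableSet V → (∀ᵐ χ ∂P, (χ ∈ V ↔ χ.mulShift kk ∈ V)) →
  ∀ (F : Finset ℂ) (c : ℂ → ℂ) (lam : ℝ), 0 < lam →
    MeasurableSet (Good F c lam) ∧
    P.real (V \ Good F c lam) ≤ 8 * √(P.real (V ∩ bad F c)) / lam

/-- height: `h = a / b` with Gaussian integers of the same modulus `≤ B` -/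
def Ht (h : ℂ) (B : ℝ) : Prop := ∃ a ∈ ZI, ∃ b ∈ ZI, a ≠ 0 ∧ ‖a‖ = ‖b‖ ∧ h = a / b ∧ ‖a‖ ≤ B

open Classical in
/-- the event of the row E2 -/
def EE (G : Set Om) (X : ℕ → ℕ) : Set Om :=
  {χ | ∀ n : ℕ, ∃ h : ℂ, Ht h (∏ i ∈ Finset.range (n + 1), (5 * (X i : ℝ)) ^ 2) ∧
    (X n : ℝ) ≤ 2 * (((Finset.range (X n)).filter fun a => χ.mulShift (wu a * h) ∈ G).card : ℝ)}

/-- row E2 (from MAX with `N = X`, `u i a = w_a`, `f = 1_{V \ G}`, `lam = 1/2`; A4): choose the factors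
`a_0..a_{n-1}, a'_0..a'_n` with average over `a_n` at most `1/2`. -/
def ST_E2 : Prop := ∀ (P : Measure Om), IsProbabilityMeasure P → Inv P → ∀ V G : Set Om,
  MeasurableSet V → MeasurableSet G →
  (∀ u ∈ QU, u ∈ RR → u⁻¹ ∈ RR → ∀ᵐ χ ∂P, (χ ∈ V ↔ χ.mulShift u ∈ V)) →
  ∀ X : ℕ → ℕ, (∀ n, 1 ≤ X n) →
    P.real (V \ EE G X) ≤ 4 * √(P.real (V \ G))

/-! ### part D: counting -/

/-- `χ = e_t χ'` on `(2-i)^(-j) s⁻¹ ℤ[i]` -/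
def Agr (χ χ' : Om) (t : ℂ) (j : ℕ) (s : ℂ) : Prop :=
  ∀ z ∈ ZI, χ (z / (gb ^ j * s)) = e t (z / (gb ^ j * s)) * χ' (z / (gb ^ j * s))

/-- row D1 (from A1): one step; `s` = common denominator of `F` times `2 + i` -/
def ST_D1 : Prop := ∀ (F : Finset ℂ) (c : ℂ → ℂ), (∀ x ∈ F, x ∈ RR) →
  ∃ s ∈ ZI, s ≠ 0 ∧ ∃ η : ℝ, 0 < η ∧ η ≤ 1 ∧ ∀ (χ χ' : Om) (t : ℂ) (j : ℕ), ‖t‖ ≤ η →
    Agr χ χ' t j s →
    ((χ.mulShift (kk ^ j) ∉ bad F c ∧ χ'.mulShift (kk ^ j) ∉ bad F c) ∨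
      ‖ev (xj j) χ - ev (xj j) χ'‖ ≤ 1 / 2) →
    Agr χ χ' t (j + 1) s

/-- row D2: cells -/
def ST_D2 : Prop := ∀ s ∈ ZI, s ≠ 0 → ∀ η : ℝ, 0 < η → ∃ (C : ℕ) (cell : Om → Fin C),
  ∀ χ χ' : Om, cell χ = cell χ' → ∃ t : ℂ, ‖t‖ ≤ η ∧ Agr χ χ' t 0 s

/-- row D3: labels -/
def ST_D3 : Prop := ∃ (C : ℕ) (lab : Circle → Fin C), ∀ x y : Circle, lab x = lab y →
  ‖(x : ℂ) - (y : ℂ)‖ ≤ 1 / 2

/-- row D4: words with few letters (`x^(lam L) #words ≤ (1 + C x)^L`) -/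
def ST_D4 : Prop := ∀ (C : ℕ) (η : ℝ), 0 < η → ∃ lam : ℝ, 0 < lam ∧ ∀ L : ℕ,
  (((Finset.univ : Finset (Fin L → Option (Fin C))).filter fun w =>
    (((Finset.univ : Finset (Fin L)).filter fun j => w j ≠ none).card : ℝ) ≤ lam * L).card : ℝ) ≤
  Real.exp (η * L)

open Classical in
/-- row D5 (from D1, D2, D3, D4): pigeonhole.  Code of `χ`: cell, and the word with letter `none` at
the good times and `some (lab (χ (x_j)))` at the bad times. -/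
def ST_D5 : Prop := ∀ η : ℝ, 0 < η → ∃ lam : ℝ, 0 < lam ∧ ∀ (F : Finset ℂ) (c : ℂ → ℂ),
  (∀ x ∈ F, x ∈ RR) → ∃ s ∈ ZI, s ≠ 0 ∧ ∃ C : ℝ, 0 < C ∧ ∀ (L : ℕ) (A : Finset ℕ) (f : ℕ → Om),
    (∀ a ∈ A, (((Finset.range L).filter fun j => (f a).mulShift (kk ^ j) ∈ bad F c).card : ℝ) ≤ lam * L) →
    C * Real.exp (η * L) < A.card →
    ∃ a ∈ A, ∃ b ∈ A, a ≠ b ∧ ∃ t : ℂ, ‖t‖ ≤ 1 ∧ Agr (f a) (f b) t L s

/-! ### part F: rigidity -/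

/-- `χ = e_T` on `M (2-i)^(-2^n) ℤ[i]` -/
def Sn (χ : Om) (n : ℕ) (B : ℝ) : Prop := ∃ (M : ℕ) (T : ℂ), 1 ≤ M ∧ (M : ℝ) ≤ B ∧ ‖T‖ ≤ B ∧
  ∀ z ∈ ZI, χ (M * z / gb ^ (2 ^ n)) = e T (M * z / gb ^ (2 ^ n))

/-- row F1: from two equal codes to `Sn`.
`w_a - w_b = 10 i (b - a)/((5a - i)(5b - i))`, `h = num/den`, `M = 10 |b - a| |num|²`. -/
def ST_F1 : Prop := ∀ (χ : Om) (n : ℕ) (h : ℂ) (B : ℝ) (X a b : ℕ) (s t : ℂ), Ht h B → s ∈ ZI →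
  s ≠ 0 → a < X → b < X → a ≠ b → ‖t‖ ≤ 1 →
  Agr (χ.mulShift (wu a * h)) (χ.mulShift (wu b * h)) t (2 ^ n) s →
  Sn χ n (10 * (X : ℝ) ^ 2 * (1 + B ^ 2))

/-- row F2 (numbers): `X i = ⌈exp(2^(n₀+i)/500)⌉` with `n₀` large -/
def ST_F2 : Prop := ∀ C : ℝ, ∃ (n₀ : ℕ) (X : ℕ → ℕ), (∀ i, 1 ≤ X i) ∧ ∀ i,
  2 * (C * Real.exp (1 / 1000 * ((2 ^ (n₀ + i) : ℕ) : ℝ))) < X i ∧
  10 * (X i : ℝ) ^ 2 * (1 + (∏ l ∈ Finset.range (i + 1), (5 * (X l : ℝ)) ^ 2) ^ 2) ≤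
    Real.exp (2 ^ (n₀ + i) / 40)

/-- row F3 (rigidity): consistency of `T_n, T_{n+1}` and coprimality -/
def ST_F3 : Prop := ∀ (χ : Om) (n₀ : ℕ), (∀ n, n₀ ≤ n → Sn χ n (Real.exp (2 ^ n / 40))) → χ ∈ FF

/-- row MAIN (from MS, A4, V, C, E1, E2, D5, F1, F2, F3; helper1) -/
def ST_MAIN : Prop := ∀ (P : Measure Om), IsProbabilityMeasure P → Inv P →
  (∫ χ, ev 1 χ ∂P) ≠ 0 → P FF ≠ 0

/-! ### part Q: all primes -/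

/-- row MF -/
def ST_MF : Prop := (∀ m : ℕ, 1 ≤ m → MeasurableSet (Fm m)) ∧ MeasurableSet GG

/-- row Q1: `v = α / conj α`, `α = (1 + √(1-4q))/2`, `α² = α - q`, `α^(2k) = A_k + B_k α`,
`A_k ≡ 0`, `B_k ≡ 1` mod `q`, `B_{k'} v^k + B_k q^{k'-k} v^{-k'} = H / q^k`,
`H = A_k B_{k'} + B_k A_{k'} + B_k B_{k'} ≡ 1` mod `q`. -/
def ST_Q1 : Prop := ∀ q : ℕ, q.Prime → ∃ v : ℂ, ‖v‖ = 1 ∧ ∀ k k' : ℕ, 1 ≤ k → k ≤ k' →
  ∃ a b c : ℤ, (1 : ℂ) / (q : ℂ) ^ k = a + b * v ^ k + c * (v⁻¹) ^ k'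

/-- row Q2 (from MS, MF, Q1; Poincare recurrence for `v` and `v⁻¹`) -/
def ST_Q2 : Prop := ∀ (P : Measure Om), IsProbabilityMeasure P → InvC P → ∀ m : ℕ, 1 ≤ m →
  ∀ᵐ χ ∂P, χ ∈ Fm m → ∀ q : ℕ, q.Prime → ∀ k : ℕ, ∃ T : ℂ, ∀ z ∈ OP,
    χ (1 / (q : ℂ) ^ k * (m * z)) = e T (m * z)

/-- row Q3 (deterministic) -/
def ST_Q3 : Prop := ∀ (χ : Om) (m : ℕ), 1 ≤ m → χ ∈ Fm m →
  (∀ q : ℕ, q.Prime → ∀ k : ℕ, ∃ T : ℂ, ∀ z ∈ OP, χ (1 / (q : ℂ) ^ k * (m * z)) = e T (m * z)) →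
  χ ∈ GG

/-! ### part G: the end -/

/-- row G0 (from MS, MF, Q2, Q3, MAIN) -/
def ST_G0 : Prop := ∀ (P : Measure Om), IsProbabilityMeasure P → InvC P → ∀ y ∈ ZI, y ≠ 0 →
  ∫ χ in GGᶜ, ev y χ ∂P = 0

/-- row G1 (from MS, MF): `φ(y) = ∫_G cos Re(conj T y)` is continuous and invariant under rational
units, which are dense in the circle; average over the circle. -/
def ST_G1 : Prop := ∀ (P : Measure Om), IsProbabilityMeasure P → InvC P →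
  ∃ r : Om → ℝ, Measurable r ∧ (∀ χ, 0 ≤ r χ) ∧ ∀ y ∈ ZI,
    ∫ χ in GG, (ev y χ).re ∂P = ∫ χ in GG, Pool.Agent.Helper16.RC.J (‖y‖ * r χ) ∂P

/-- row G2 (from BO3, BO4, UNI, G0, G1, Helper16 ST_POS) -/
def ST_G2 : Prop := ∀ F : ℝ → ℝ, Pool.Agent.Helper16.RA.RPD F →
  0 ≤ 699 / 10 + 228 * F 1 + 88 * F 2 + 208 * F 4 + 52 * F 5 + 86 * F 8

/-- row FIN (from G2, Helper16 ST_CERT, Helper91 st_PHI) -/
def ST_FIN : Prop := ∀ c : ℂ → Bool, ∃ m n : ℕ, (m = 1 ∨ m = 2) ∧ (n = 1 ∨ n = 2) ∧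
  Pool.Agent.Helper16.RA.Mono c m n

end Pool.Agent.Helper1.RG
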