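import Pool.Agent.Helper1.RG.MAIN
import Pool.Agent.Helper59.RG.G2
import Pool.Agent.Helper38.RG.L1
import Pool.Agent.Helper51.RG.F1
import Pool.Agent.Helper61.RG.F2
import Pool.Agent.Helper8.RG.A1
import Pool.Agent.Helper95.RG.A3
import Pool.Agent.Helper90.RG.A4
import Pool.Agent.Helper28.RG.C
import Pool.Agent.Helper28.RG.DEN
import Pool.Agent.Helper55.RG.D1
import Pool.Agent.Helper51.RG.D2
import Pool.Agent.Helper58.RG.D3
import Pool.Agent.Helper51.RG.D4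
import Pool.Agent.Helper62.RG.D5
import Pool.Agent.Helper4.RG.E1
import Pool.Agent.Helper70.RG.E2
import Pool.Agent.Helper85.RG.F3
import Pool.Agent.Helper95.RG.FIL
import Pool.Agent.Helper90.RG.G0
import Pool.Agent.Helper19.RG.H2
import Pool.Agent.Helper9.RG.H3
import Pool.Agent.Helper52.RG.H4
import Pool.Agent.Helper37.RG.MAX
import Pool.Agent.Helper70.RG.PRD
import Pool.Agent.Helper76.RG.Q2
import Pool.Agent.Helper12.RG.Q3
import Pool.Agent.Helper80.RG.V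
import Pool.Agent.Helper58.RG.MS
import Pool.Agent.Helper35.RC.POS
import Pool.Agent.Helper51.RC.CH
import Pool.Agent.Helper51.RC.DEC
import Pool.Agent.Helper73.RC.NUM
import Pool.Agent.Helper94.RC.COS

/-!
# Project RG: assembly
-/

set_option autoImplicit false

open Pool.Agent.Helper1.RG

namespace Pool.Agent.Helper1.RG

theorem all_V (hL1 : ST_L1) : ST_V := by
  have hFIL := Pool.Agent.Helper95.RG.st_FIL Pool.Agent.Helper8.RG.st_A1 Pool.Agent.Helper8.RG.st_A2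
  have hH2 := st_H2 Pool.Agent.Helper8.RG.st_A1 hFIL hL1
  have hH3 := Pool.Agent.Helper9.RG.st_H3 Pool.Agent.Helper8.RG.st_A1 Pool.Agent.Helper8.RG.st_A2
    Pool.Agent.Helper95.RG.st_A3 hH2
  have hH4 := Pool.Agent.Helper52.RG.st_H4 Pool.Agent.Helper8.RG.st_A1 Pool.Agent.Helper8.RG.st_A2
  exact Pool.Agent.Helper80.RG.st_V Pool.Agent.Helper58.RG.st_MS Pool.Agent.Helper8.RG.st_A1 hFIL hL1
    hH3 hH4 Pool.Agent.Helper70.RG.st_PRD

theorem all_MAIN (hL1 : ST_L1) (hF1 : ST_F1) (hF2 : ST_F2) : ST_MAIN :=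
  st_MAIN (all_V hL1)
    (Pool.Agent.Helper28.RG.st_C Pool.Agent.Helper8.RG.st_A1 Pool.Agent.Helper28.RG.st_DEN)
    Pool.Agent.Helper4.RG.st_E1
    (Pool.Agent.Helper70.RG.st_E2 Pool.Agent.Helper37.RG.st_MAX Pool.Agent.Helper8.RG.st_A1
      Pool.Agent.Helper90.RG.st_A4)
    (Pool.Agent.Helper62.RG.st_D5 Pool.Agent.Helper55.RG.st_D1 Pool.Agent.Helper51.RG.st_D2
      Pool.Agent.Helper58.RG.st_D3 Pool.Agent.Helper51.RG.st_D4)
    hF1 hF2 Pool.Agent.Helper85.RG.st_F3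

theorem all_G0 (hL1 : ST_L1) (hF1 : ST_F1) (hF2 : ST_F2) : ST_G0 :=
  Pool.Agent.Helper90.RG.st_G0 Pool.Agent.Helper58.RG.st_MS Pool.Agent.Helper59.RG.st_MF
    (Pool.Agent.Helper76.RG.st_Q2 Pool.Agent.Helper58.RG.st_MS Pool.Agent.Helper59.RG.st_MF
      Pool.Agent.Helper85.RG.st_Q1)
    Pool.Agent.Helper12.RG.st_Q3 (all_MAIN hL1 hF1 hF2)

theorem all_FIN (hL1 : ST_L1) (hF1 : ST_F1) (hF2 : ST_F2) : ST_FIN :=
  Pool.Agent.Helper59.RG.st_FIN (Pool.Agent.Helper59.RG.st_G2' (all_G0 hL1 hF1 hF2)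
    (Pool.Agent.Helper16.RC.st_POS Pool.Agent.Helper16.RC.st_CH
      (Pool.Agent.Helper16.RC.st_NUM Pool.Agent.Helper16.RC.st_JT)
      (Pool.Agent.Helper16.RC.st_DEC Pool.Agent.Helper16.RC.st_JT)))

theorem final : ST_FIN :=
  all_FIN Pool.Agent.Helper38.RG.st_L1 Pool.Agent.Helper51.RG.st_F1 Pool.Agent.Helper61.RG.st_F2

end Pool.Agent.Helper1.RG
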