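import Pool.Agent.Helper1.RG.Defs

/-!
# RG, row MAIN
-/

set_option autoImplicit false

open MeasureTheory Complex Filter Topology
open scoped ComplexConjugate

namespace Pool.Agent.Helper1.RG

theorem st_MAIN (hV : ST_V) (hC : ST_C) (hE1 : ST_E1) (hE2 : ST_E2) (hD5 : ST_D5) (hF1 : ST_F1)
    (hF2 : ST_F2) (hF3 : ST_F3) : ST_MAIN := by
  intro P hP hinv ht hFF
  obtain ⟨V, hVm, hV0, hVk, hVu, hVc⟩ := hV P hP hinv ht
  obtain ⟨lam, hlam, hD⟩ := hD5 (1 / 1000) (by norm_num)
  have key : ∀ ε : ℝ, 0 < ε → P.real V ≤ 4 * √(8 * √ε / lam) := by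
    intro ε hε
    obtain ⟨F, c, hF, hb⟩ := hC P hP V hVm hVc ε hε
    obtain ⟨hGm, hG⟩ := hE1 P hP hinv V hVm hVk F c lam hlam
    obtain ⟨s, hs, hs0, C, hC0, hDD⟩ := hD F c hF
    obtain ⟨n₀, X, hX1, hX⟩ := hF2 C
    have h2 := hE2 P hP hinv V (Good F c lam) hVm hGm hVu X hX1
    have hsub : V ⊆ (V \ EE (Good F c lam) X) ∪ FF := by
      intro χ hχ
      by_cases hE : χ ∈ EE (Good F c lam) X
      · right
        apply hF3 χ n₀
        intro n hn
        obtain ⟨i, rfl⟩ := Nat.exists_eq_add_of_le hn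
        obtain ⟨h, hh, hcard⟩ := hE i
        obtain ⟨hX2, hX3⟩ := hX i
        classical
        obtain ⟨a, ha, b, hb', hab, t, ht1, hagr⟩ := hDD (2 ^ (n₀ + i))
          ((Finset.range (X i)).filter fun a => χ.mulShift (wu a * h) ∈ Good F c lam)
          (fun a => χ.mulShift (wu a * h)) (by
            intro a ha
            have hg := (Finset.mem_filter.1 ha).2 (n₀ + i)
            push_cast
            convert hg) (by
            have : (X i : ℝ) ≤ 2 * (((Finset.range (X i)).filter
              fun a => χ.mulShift (wu a * h) ∈ Good F c lam).card : ℝ) := by convert hcard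
            linarith)
        have h5 := hF1 χ (n₀ + i) h _ (X i) a b s t hh hs hs0
          (Finset.mem_range.1 (Finset.mem_filter.1 ha).1)
          (Finset.mem_range.1 (Finset.mem_filter.1 hb').1) hab ht1 hagr
        obtain ⟨M, T, h1, h2', h3, h4⟩ := h5
        exact ⟨M, T, h1, h2'.trans hX3, h3.trans hX3, h4⟩
      · left
        exact ⟨hχ, hE⟩
    have h3 : P.real V ≤ P.real (V \ EE (Good F c lam) X) := by
      rw [measureReal_def, measureReal_def]
      apply ENNReal.toReal_mono (measure_ne_top _ _)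
      calc P V ≤ P ((V \ EE (Good F c lam) X) ∪ FF) := measure_mono hsub
        _ ≤ P (V \ EE (Good F c lam) X) + P FF := measure_union_le _ _
        _ = P (V \ EE (Good F c lam) X) := by rw [hFF, add_zero]
    calc P.real V ≤ P.real (V \ EE (Good F c lam) X) := h3
      _ ≤ 4 * √(P.real (V \ Good F c lam)) := h2
      _ ≤ 4 * √(8 * √ε / lam) := by
        apply mul_le_mul_of_nonneg_left _ (by norm_num)
        apply Real.sqrt_le_sqrt
        refine hG.trans ?_
        apply div_le_div_of_nonneg_right _ hlam.le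
        exact mul_le_mul_of_nonneg_left (Real.sqrt_le_sqrt hb) (by norm_num)
  have hlim : Tendsto (fun ε : ℝ => 4 * √(8 * √ε / lam)) (𝓝[>] 0) (𝓝 0) := by
    have : Continuous (fun ε : ℝ => 4 * √(8 * √ε / lam)) := by fun_prop
    have h0 := this.tendsto 0
    simp only [Real.sqrt_zero, mul_zero, zero_div] at h0
    exact h0.mono_left nhdsWithin_le_nhds
  have h0 : P.real V ≤ 0 := ge_of_tendsto hlim (by
    filter_upwards [self_mem_nhdsWithin] with ε hε
    exact key ε hε)
  have h1 : P.real V = 0 := le_antisymm h0 measureReal_nonneg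
  rw [measureReal_def, ENNReal.toReal_eq_zero_iff] at h1
  rcases h1 with h1 | h1
  · exact hV0 h1
  · exact measure_ne_top _ _ h1

end Pool.Agent.Helper1.RG
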